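import Pool.Agent.Lib.MP_c82047_co97.Dprime
import Pool.Agent.Lib.MP_c82047_co80.Density

/-!
# Brown–Erdős–Sós for a window of orders, slightly below density `1/12`

Call a point set `S` of a linear triple system tight if it contains at least `|S| - 3` triples.
There is an absolute constant `c > 0` such that, if `k ≥ 5` and no set `S` with `k ≤ |S| < 2k` is
tight, then the system has at most `(1/12 - c) n² + (19/6) k n` triples.
-/

open Pool.Agent.Lib.MP_c82047_co97

namespace Pool.Agent.Results.MP_c82047_co.BelowTwelfth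

theorem result :
    ∃ c : ℝ, 0 < c ∧ ∀ (k n : ℕ), 5 ≤ k →
      ∀ H : Finset (Finset (Fin n)), (∀ E ∈ H, E.card = 3) →
      (∀ E ∈ H, ∀ F ∈ H, E ≠ F → (E ∩ F).card ≤ 1) →
      (∀ S : Finset (Fin n), k ≤ S.card → S.card < 2 * k →
        (H.filter (fun E => E ⊆ S)).card < S.card - 3) →
      (H.card : ℝ) ≤ (1 / 12 - c) * (n : ℝ) ^ 2 + 19 / 6 * k * n := by
  obtain ⟨c, hc, h⟩ := dprime
  refine ⟨c, hc, fun k n hk H h3 hlin hfree => ?_⟩
  have hn : (0 : ℝ) ≤ n := Nat.cast_nonneg n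
  have hk0 : (0 : ℝ) ≤ k := Nat.cast_nonneg k
  by_cases hkn : (k : ℝ) ≤ c * (n : ℝ)
  · by_contra hcard
    push Not at hcard
    have h0 : (0 : ℝ) ≤ 19 / 6 * k * n := by positivity
    obtain ⟨S, h1, h2, h4⟩ := h k n hk hkn H ⟨h3, hlin⟩ (by linarith)
    have := hfree S h1 h2
    unfold e at h4
    omega
  · push Not at hkn
    have h1 := Pool.Agent.MPc82047h80.family_density k n hk H h3 hlin hfree
    have h2 : (12 : ℝ) * H.card ≤ (n : ℝ) ^ 2 + 26 * k * n := by exact_mod_cast h1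
    have h3 : c * (n : ℝ) * n ≤ k * n := mul_le_mul_of_nonneg_right hkn.le hn
    nlinarith

end Pool.Agent.Results.MP_c82047_co.BelowTwelfth
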