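import Pool.Agent.Lib.MP_c82047_co18.ExactFinal

/-!
# The two-colour Ramsey form of the Brown–Erdős–Sós conjecture for triple systems

For every `k`, in every 2-colouring of a large Steiner triple system (or of a linear triple system
with at least `(1/6 - ε) n²` triples) one colour class has `k` points spanning at least `k - 3`
triples.
-/

open Pool.Agent.Lib.MP_c82047_co18
open Pool.Agent.Lib.MP_c82047_co97 (Lin e)

namespace Pool.Agent.Results.MP_c82047_co.ExactRamsey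

theorem result (k : ℕ) :
    ∃ ε : ℝ, 0 < ε ∧ ∃ n₀ : ℕ, ∀ n : ℕ, n₀ ≤ n → ∀ T : Finset (Finset (Fin n)),
      (∀ E ∈ T, E.card = 3) → (∀ E ∈ T, ∀ F ∈ T, E ≠ F → (E ∩ F).card ≤ 1) →
      (1 / 6 - ε) * (n : ℝ) ^ 2 ≤ (T.card : ℝ) → ∀ A ⊆ T, ∃ S : Finset (Fin n), S.card = k ∧
        (k ≤ (A.filter (fun E => E ⊆ S)).card + 3 ∨
          k ≤ ((T \ A).filter (fun E => E ⊆ S)).card + 3) := by
  obtain ⟨ε, hε, n₀, h⟩ := exact_ramsey k
  refine ⟨ε, hε, n₀, fun n hn T h3 hlin hcard A hA => ?_⟩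
  obtain ⟨S, hS, h1⟩ := h n hn T ⟨h3, hlin⟩ hcard A hA
  refine ⟨S, hS, ?_⟩
  unfold e at h1
  rw [hS] at h1
  exact h1

end Pool.Agent.Results.MP_c82047_co.ExactRamsey
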