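import Pool.Agent.Lib.MP_c82047_co_LS.Final

/-!
# The Brown-Erdos-Sos conjecture with a power saving in almost all Latin squares

A Latin square `L` of order `n` is a linear 3-graph with `3 n` points (rows, columns, symbols) and
`n ^ 2` triples, the cells.  For every `k` there is `c > 0` such that for all but a proportion
`n ^ (- c n ^ (2 - c))` of the Latin squares of order `n`, every set of at least `n ^ (2 - c)`
cells contains `k - 3` cells with at most `k` points.  The same is true for every fixed
3-partite configuration in which any `j ≥ 2` triples have at least `j + 3` points.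
-/

set_option autoImplicit false

open Function BESL

namespace Pool.Agent.Results.MP_c82047_co.LatinSquares

/-- the Latin squares of order `n`: all rows and all columns are injective -/
def Latin (n : ℕ) : Set (Fin n → Fin n → Fin n) :=
  {L | (∀ i, Injective (L i)) ∧ ∀ j, Injective fun i => L i j}

/-- any `j ≥ 2` triples of the configuration have at least `j + 3` points -/
def Sparse {p q s : ℕ} (F : Finset (Fin p × Fin q × Fin s)) : Prop :=
  ∀ G, G ⊆ F → 2 ≤ G.card →
    G.card + 3 ≤ (G.image fun t => t.1).card + (G.image fun t => t.2.1).card +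
      (G.image fun t => t.2.2).card

/-- the set of cells `A` of the square `L` contains a copy of the configuration `F` -/
def Contains {p q s n : ℕ} (L : Fin n → Fin n → Fin n) (A : Finset (Fin n × Fin n))
    (F : Finset (Fin p × Fin q × Fin s)) : Prop :=
  ∃ (α : Fin p → Fin n) (β : Fin q → Fin n) (γ : Fin s → Fin n),
    Injective α ∧ Injective β ∧ Injective γ ∧
      ∀ t ∈ F, (α t.1, β t.2.1) ∈ A ∧ L (α t.1) (β t.2.1) = γ t.2.2

theorem result :
    (∀ k : ℕ, 4 ≤ k → ∃ c : ℝ, 0 < c ∧ ∃ n₀ : ℕ, ∀ n : ℕ, n₀ ≤ n →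
      ∀ m : ℕ, (n : ℝ) ^ (2 - c) ≤ (m : ℝ) →
        (Set.ncard {L | L ∈ Latin n ∧ ∃ A : Finset (Fin n × Fin n), m ≤ A.card ∧
          ∀ B, B ⊆ A → B.card = k - 3 → k < (B.image fun x => x.1).card +
            (B.image fun x => x.2).card + (B.image fun x => L x.1 x.2).card} : ℝ) ≤
          (n : ℝ) ^ (-(c * m)) * (Set.ncard (Latin n) : ℝ)) ∧
    (∀ (p q s : ℕ) (F : Finset (Fin p × Fin q × Fin s)), Sparse F →
      ∃ c : ℝ, 0 < c ∧ ∃ n₀ : ℕ, ∀ n : ℕ, n₀ ≤ n →
        ∀ m : ℕ, (n : ℝ) ^ (2 - c) ≤ (m : ℝ) →
          (Set.ncard {L | L ∈ Latin n ∧ ∃ A : Finset (Fin n × Fin n), m ≤ A.card ∧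
            ¬ Contains L A F} : ℝ) ≤ (n : ℝ) ^ (-(c * m)) * (Set.ncard (Latin n) : ℝ)) := by
  -- from sets of cells to sets of triples
  have key : ∀ {n : ℕ} (L : Fin n → Fin n → Fin n) (A : Finset (Fin n × Fin n)),
      (A.image fun x => (x.1, x.2, L x.1 x.2)) ⊆ cells L ∧
      (A.image fun x => (x.1, x.2, L x.1 x.2)).card = A.card := by
    intro n L A
    constructor
    · intro t ht
      obtain ⟨x, -, rfl⟩ := Finset.mem_image.1 ht
      simp [cells]
    · refine Finset.card_image_of_injective _ fun x y h => ?_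
      simp only [Prod.mk.injEq] at h
      exact Prod.ext h.1 h.2.1
  constructor
  · intro k hk
    obtain ⟨c, hc, n₀, h⟩ := main_k k hk
    refine ⟨c, hc, n₀, fun n hn m hm => le_trans ?_ (h n hn m hm)⟩
    refine Nat.cast_le.2 (Set.ncard_le_ncard ?_ (Set.toFinite _))
    rintro L ⟨hL, A, hA, hB⟩
    refine ⟨hL, A.image fun x => (x.1, x.2, L x.1 x.2), (key L A).1, ?_, ?_⟩
    · rw [(key L A).2]
      exact hA
    · intro B' hB' hcard
      -- `B'` is the image of a set `B` of cells
      have h1 := hB (B'.image fun t => (t.1, t.2.1)) ?_ ?_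
      · have h2 : ((B'.image fun t => (t.1, t.2.1)).image fun x => x.1) =
            B'.image fun t => t.1 := by
          rw [Finset.image_image]
          rfl
        have h3 : ((B'.image fun t => (t.1, t.2.1)).image fun x => x.2) =
            B'.image fun t => t.2.1 := by
          rw [Finset.image_image]
          rfl
        have h4 : ((B'.image fun t => (t.1, t.2.1)).image fun x => L x.1 x.2) =
            B'.image fun t => t.2.2 := by
          rw [Finset.image_image]
          refine Finset.image_congr fun t ht => ?_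
          have h5 := (key L A).1 (hB' ht)
          simp only [cells, Finset.mem_filter] at h5
          exact h5.2
        rw [h2, h3, h4] at h1
        exact h1
      · intro x hx
        obtain ⟨t, ht, rfl⟩ := Finset.mem_image.1 hx
        obtain ⟨y, hy, rfl⟩ := Finset.mem_image.1 (hB' ht)
        exact hy
      · rw [Finset.card_image_of_injOn, hcard]
        intro t ht t' ht' h
        have h5 := (key L A).1 (hB' ht)
        have h6 := (key L A).1 (hB' ht')
        simp only [cells, Finset.mem_filter] at h5 h6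
        simp only [Prod.mk.injEq] at h
        refine Prod.ext h.1 (Prod.ext h.2 ?_)
        rw [← h5.2, ← h6.2, h.1, h.2]
  · intro p q s F hF
    obtain ⟨c, hc, n₀, h⟩ := main_cop F hF
    refine ⟨c, hc, n₀, fun n hn m hm => le_trans ?_ (h n hn m hm)⟩
    refine Nat.cast_le.2 (Set.ncard_le_ncard ?_ (Set.toFinite _))
    rintro L ⟨hL, A, hA, hno⟩
    obtain ⟨A', hA', hm'⟩ := Finset.exists_subset_card_eq hA
    refine ⟨hL, A'.image fun x => (x.1, x.2, L x.1 x.2), (key L A').1, ?_, ?_⟩
    · rw [(key L A').2]
      exact hm'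
    · rintro ⟨θ, hθ, hsub⟩
      refine hno ⟨θ.1, θ.2.1, θ.2.2, hθ.1, hθ.2.1, hθ.2.2, fun t ht => ?_⟩
      have h1 : mp θ t ∈ A'.image fun x => (x.1, x.2, L x.1 x.2) :=
        hsub (Finset.mem_image_of_mem _ ht)
      obtain ⟨x, hx, h2⟩ := Finset.mem_image.1 h1
      simp only [mp, Prod.mk.injEq] at h2
      rw [← h2.1, ← h2.2.1, ← h2.2.2]
      exact ⟨hA' hx, rfl⟩

end Pool.Agent.Results.MP_c82047_co.LatinSquares
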