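import Pool.Agent.Lib.MP_c82047_co_OB.Main

/-!
# The Brown-Erdos-Sos conjecture and ordered patterns

Let `k ≥ 9`. A 3-graph with `n` vertices and at least `ε n ^ 2` edges in which every `k` vertices
span fewer than `k - 3` edges contains, if `n` is large, every ordered matching of a given size,
for every labelling `e = {x e, y e, z e}` of its edges and for every choice of three linear orders
of its vertices, one for each of the three places. In other words, the Brown-Erdos-Sos conjecture
for these `k` holds for all 3-graphs which avoid one ordered matching for one labelling and one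
choice of three orders.
-/

set_option autoImplicit false

namespace Pool.Agent.Results.MP_c82047_co.OrderedPatterns

/-- `E` contains every ordered matching of size `r`: for every labelling `e = {x e, y e, z e}` of
the edges, for all linear orders of the vertices given by injective functions `f, g, h`, and for
all permutations `σ, τ` there are edges `e 0, ..., e (r - 1)` such that the vertices `x (e i)`
increase for `f`, the vertices `y (e (σ i))` increase for `g`, and the vertices `z (e (τ i))`
increase for `h` -/
def Universal {V : Type} [DecidableEq V] (r : ℕ) (E : Finset (Finset V)) : Prop :=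
  ∀ x y z : Finset V → V, (∀ e ∈ E, e = {x e, y e, z e}) → ∀ f g h : V → ℝ,
    Function.Injective f → Function.Injective g → Function.Injective h →
    ∀ σ τ : Equiv.Perm (Fin r), ∃ e : Fin r → Finset V, (∀ i, e i ∈ E) ∧
      StrictMono (fun i => f (x (e i))) ∧ StrictMono (fun i => g (y (e (σ i)))) ∧
        StrictMono (fun i => h (z (e (τ i))))

theorem result : ∀ k : ℕ, 9 ≤ k → ∀ (r : ℕ) (ε : ℝ), 0 < ε → ∃ n₀ : ℕ,
    ∀ (V : Type) [Fintype V] [DecidableEq V], n₀ ≤ Fintype.card V → ∀ E : Finset (Finset V),
      (∀ e ∈ E, e.card = 3) → ε * (Fintype.card V : ℝ) ^ 2 ≤ (E.card : ℝ) →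
      (∀ S : Finset V, S.card = k → (E.filter fun e => e ⊆ S).card < k - 3) →
        Universal r E :=
  fun _ hk r _ hε => BESO.main_univ (Or.inr hk) r hε

end Pool.Agent.Results.MP_c82047_co.OrderedPatterns
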